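import Mathlib

/-!
Graphons on `[0,1]`, induced densities, sub-objects, persistence sets and cographs.
A finite graph is a pair `⟨n, H⟩` with `H` a simple graph on `Fin n`.
-/

namespace Pool.Agent.MP_815355_co

open MeasureTheory

/-- A graphon: a symmetric measurable function `[0,1]² → [0,1]`. -/
structure Graphon where
  W : unitInterval → unitInterval → ℝ
  symm : ∀ x y, W x y = W y x
  meas : Measurable fun p : unitInterval × unitInterval => W p.1 p.2
  nonneg : ∀ x y, 0 ≤ W x y
  le_one : ∀ x y, W x y ≤ 1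

open Classical in
/-- `∏_{ij ∈ E(H)} W(x_i,x_j) ∏_{ij ∉ E(H)} (1 - W(x_i,x_j))`, over the pairs `i < j`. -/
noncomputable def weight (φ : Graphon) {n : ℕ} (H : SimpleGraph (Fin n))
    (x : Fin n → unitInterval) : ℝ :=
  ∏ p : {p : Fin n × Fin n // p.1 < p.2},
    if H.Adj p.1.1 p.1.2 then φ.W (x p.1.1) (x p.1.2) else 1 - φ.W (x p.1.1) (x p.1.2)

/-- The (labelled) induced density of `H` in the graphon. -/
noncomputable def density (φ : Graphon) {n : ℕ} (H : SimpleGraph (Fin n)) : ℝ :=
  ∫ x : Fin n → unitInterval, weight φ H x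

/-- The (labelled) induced density of `H` in `W|_f`, the graphon on the probability space
`([0,1], f dλ / ∫ f)`. -/
noncomputable def densityOn (φ : Graphon) (f : unitInterval → ℝ) {n : ℕ}
    (H : SimpleGraph (Fin n)) : ℝ :=
  (∫ x : Fin n → unitInterval, (∏ i, f (x i)) * weight φ H x) / (∫ y, f y) ^ n

/-- Weak isomorphism: the two graphons represent the same limit. -/
def WeaklyIso (φ ψ : Graphon) : Prop :=
  ∀ (n : ℕ) (H : SimpleGraph (Fin n)), density φ H = density ψ H

/-- `ψ ⪯ φ`: the limit of `ψ` is represented by `W|_f` for some graphon `W` representing the limit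
of `φ` and some measurable `f : [0,1] → [0,1]` with `∫ f > 0`. -/
def SubObject (ψ φ : Graphon) : Prop :=
  ∃ W : Graphon, WeaklyIso W φ ∧ ∃ f : unitInterval → ℝ, Measurable f ∧
    (∀ x, 0 ≤ f x ∧ f x ≤ 1) ∧ 0 < ∫ y, f y ∧
    ∀ (n : ℕ) (H : SimpleGraph (Fin n)), density ψ H = densityOn W f H

/-- `Q(φ)`: the finite graphs of positive density. -/
def Qset (φ : Graphon) : Set (Σ n : ℕ, SimpleGraph (Fin n)) := {H | 0 < density φ H.2}

/-- `P(φ)`: the finite graphs of positive density in every sub-object. -/
def Pset (φ : Graphon) : Set (Σ n : ℕ, SimpleGraph (Fin n)) :=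
  {H | ∀ ψ : Graphon, SubObject ψ φ → H ∈ Qset ψ}

/-- The subgraph of `H` induced on a vertex set is empty, or is obtained from single vertices by
repeated disjoint unions and joins. -/
inductive CographOn {n : ℕ} (H : SimpleGraph (Fin n)) : Set (Fin n) → Prop
  | empty : CographOn H ∅
  | single (v : Fin n) : CographOn H {v}
  | union (S T : Set (Fin n)) : CographOn H S → CographOn H T → Disjoint S T →
      (∀ a ∈ S, ∀ b ∈ T, ¬ H.Adj a b) → CographOn H (S ∪ T)
  | join (S T : Set (Fin n)) : CographOn H S → CographOn H T → Disjoint S T →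
      (∀ a ∈ S, ∀ b ∈ T, H.Adj a b) → CographOn H (S ∪ T)

/-- The class `𝓕` of finite cographs together with `K_0`. -/
def cographs : Set (Σ n : ℕ, SimpleGraph (Fin n)) := {H | CographOn H.2 Set.univ}

/-- `Φ_𝓕`: the graphons with `P(φ) = Q(φ) = 𝓕`. -/
def Phi : Set Graphon := {φ | Pset φ = Qset φ ∧ Qset φ = cographs}

/-- Weakly isomorphic graphons are sub-objects of each other, so incomparable graphons represent
different limits. -/
theorem SubObject.of_weaklyIso {ψ φ : Graphon} (h : WeaklyIso ψ φ) : SubObject ψ φ :=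
  ⟨ψ, h, fun _ => 1, measurable_const, by simp, by simp, by simp [density, densityOn]⟩

end Pool.Agent.MP_815355_co
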